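import Pool.Agent.Run7.h74.AE.Iface

/-!
# Project AE, piece AZE
-/

set_option autoImplicit false

namespace Pool.Agent.Run7.h510.AE

open Filter Topology MeasureTheory
open Pool.Agent.Q97.UM
open Pool.Agent.Run7.h74.AE

/-- zeta on the horizontal ray through `it` -/
noncomputable def zr (t σ : ℝ) : ℂ := riemannZeta ((σ : ℂ) + (t : ℂ) * Complex.I)

/-- the logarithmic derivative -/
noncomputable def lr (t σ : ℝ) : ℂ := deriv riemannZeta ((σ : ℂ) + (t : ℂ) * Complex.I) /
  riemannZeta ((σ : ℂ) + (t : ℂ) * Complex.I)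

theorem ne_one {t : ℝ} (ht : t ≠ 0) (σ : ℝ) : ((σ : ℂ) + (t : ℂ) * Complex.I) ≠ 1 := by
  intro h
  have := congrArg Complex.im h
  simp at this
  exact ht this

/-- zeta tends to one -/
theorem zr_tendsto (t : ℝ) : Tendsto (zr t) atTop (𝓝 1) := by
  set f : ℕ → ℂ := fun n => (n : ℂ) ^ (-((t : ℂ) * Complex.I)) with hf
  have hn : ∀ n : ℕ, n ≠ 0 → ‖f n‖ = 1 := by
    intro n hn
    simp only [hf]
    rw [Complex.norm_natCast_cpow_of_pos (Nat.pos_of_ne_zero hn)]
    simp
  have habs : LSeries.abscissaOfAbsConv f < ⊤ := by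
    refine lt_of_le_of_lt (LSeries.abscissaOfAbsConv_le_of_le_const (f := f)
      ⟨1, fun n h => (hn n h).le⟩) ?_
    exact EReal.coe_lt_top 1
  have h1 := LSeries.tendsto_atTop habs
  have h2 : f 1 = 1 := by simp [hf]
  rw [h2] at h1
  refine h1.congr' ?_
  filter_upwards [eventually_gt_atTop (1 : ℝ)] with σ hσ
  have hre : 1 < ((σ : ℂ) + (t : ℂ) * Complex.I).re := by simpa using hσ
  unfold zr
  rw [← LSeries_one_eq_riemannZeta hre]
  unfold LSeries
  refine tsum_congr fun n => ?_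
  rcases eq_or_ne n 0 with rfl | h0
  · simp
  · rw [LSeries.term_of_ne_zero h0, LSeries.term_of_ne_zero h0]
    simp only [hf, Pi.one_apply]
    rw [Complex.cpow_neg, Complex.cpow_add _ _ (by exact_mod_cast h0)]
    field_simp

/-- decay of the logarithmic derivative -/
theorem lr_bound (t : ℝ) : ∃ C : ℝ, 0 ≤ C ∧ ∀ σ : ℝ, 2 ≤ σ →
    ‖lr t σ‖ ≤ C * Real.exp (-Real.log 2 * σ) := by
  set Λ' : ℕ → ℂ := fun n => (ArithmeticFunction.vonMangoldt n : ℂ) with hΛ
  have hs2 : Summable fun n => ‖LSeries.term Λ' 2 n‖ :=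
    (ArithmeticFunction.LSeriesSummable_vonMangoldt (s := 2) (by norm_num)).norm
  refine ⟨(∑' n, ‖LSeries.term Λ' 2 n‖) * 4, by positivity, fun σ hσ => ?_⟩
  have hre : ((σ : ℂ) + (t : ℂ) * Complex.I).re = σ := by simp
  have h1 := ArithmeticFunction.LSeries_vonMangoldt_eq_deriv_riemannZeta_div
    (s := (σ : ℂ) + (t : ℂ) * Complex.I) (by rw [hre]; linarith)
  have h2 : ‖lr t σ‖ = ‖LSeries Λ' ((σ : ℂ) + (t : ℂ) * Complex.I)‖ := by
    rw [hΛ, h1, neg_div, norm_neg]
    rfl
  have hterm : ∀ n : ℕ, ‖LSeries.term Λ' ((σ : ℂ) + (t : ℂ) * Complex.I) n‖ ≤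
      ‖LSeries.term Λ' 2 n‖ * (4 * Real.exp (-Real.log 2 * σ)) := by
    intro n
    rw [LSeries.norm_term_eq, LSeries.norm_term_eq, hre]
    rcases eq_or_ne n 0 with rfl | h0
    · simp
    · rw [if_neg h0, if_neg h0]
      rcases eq_or_ne n 1 with rfl | hn1
      · simp [hΛ]
      · have hn2 : (2 : ℝ) ≤ n := by
          have : 2 ≤ n := by omega
          exact_mod_cast this
        have hn0 : (0 : ℝ) < n := by linarith
        have e1 : (n : ℝ) ^ σ = (n : ℝ) ^ (2 : ℝ) * (n : ℝ) ^ (σ - 2) := by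
          rw [← Real.rpow_add hn0]; congr 1; ring
        have e2 : (2 : ℝ) ^ (σ - 2) ≤ (n : ℝ) ^ (σ - 2) :=
          Real.rpow_le_rpow (by norm_num) hn2 (by linarith)
        have e3 : (4 * Real.exp (-Real.log 2 * σ)) = ((2 : ℝ) ^ (σ - 2))⁻¹ := by
          rw [← Real.rpow_neg (by norm_num), Real.rpow_def_of_pos (by norm_num : (0 : ℝ) < 2)]
          have : (4 : ℝ) = Real.exp (Real.log 2 * 2) := by
            rw [mul_comm, show (2 : ℝ) * Real.log 2 = Real.log 2 + Real.log 2 by ring,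
              Real.exp_add, Real.exp_log (by norm_num)]
            norm_num
          rw [this, ← Real.exp_add]
          congr 1
          ring
        have e4 : (2 : ℂ).re = 2 := by norm_num
        rw [e4, e3, e1, div_mul_eq_div_div, div_eq_mul_inv (‖Λ' n‖ / (n : ℝ) ^ (2 : ℝ))]
        refine mul_le_mul_of_nonneg_left ?_ (by positivity)
        exact inv_anti₀ (by positivity) e2
  have hsum : Summable fun n => ‖LSeries.term Λ' 2 n‖ * (4 * Real.exp (-Real.log 2 * σ)) :=
    hs2.mul_right _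
  have hs1 : Summable fun n => ‖LSeries.term Λ' ((σ : ℂ) + (t : ℂ) * Complex.I) n‖ :=
    Summable.of_nonneg_of_le (fun _ => norm_nonneg _) hterm hsum
  rw [h2]
  unfold LSeries
  refine (norm_tsum_le_tsum_norm hs1).trans ?_
  refine (hs1.tsum_le_tsum hterm hsum).trans (le_of_eq ?_)
  rw [tsum_mul_right]
  ring

theorem t_AZE : S_AZE := by
  intro t ht hz
  -- continuity
  have hlin : Continuous (fun σ : ℝ => (σ : ℂ) + (t : ℂ) * Complex.I) := by fun_prop
  have hzr : ∀ σ : ℝ, HasDerivAt (zr t) (deriv riemannZeta ((σ : ℂ) + (t : ℂ) * Complex.I)) σ := by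
    intro σ
    have h1 : HasDerivAt (fun x : ℝ => (x : ℂ) + (t : ℂ) * Complex.I) 1 σ := by
      simpa using (Complex.ofRealCLM.hasDerivAt (x := σ)).add_const ((t : ℂ) * Complex.I)
    have h2 := (differentiableAt_riemannZeta (ne_one ht σ)).hasDerivAt
    have h3 := HasDerivAt.comp σ h2 h1
    exact h3.congr_deriv (by ring)
  have hdc : Continuous (fun σ : ℝ => deriv riemannZeta ((σ : ℂ) + (t : ℂ) * Complex.I)) := by
    have h1 : ContinuousOn (deriv riemannZeta) {1}ᶜ := by
      have h2 : DifferentiableOn ℂ riemannZeta {1}ᶜ := fun s hs =>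
        (differentiableAt_riemannZeta hs).differentiableWithinAt
      exact (h2.deriv isOpen_compl_singleton).continuousOn
    exact h1.comp_continuous hlin fun σ => ne_one ht σ
  have hzc : Continuous (zr t) := continuous_iff_continuousAt.2 fun σ => (hzr σ).continuousAt
  have hzne : ∀ σ ∈ Set.Ici (1 / 2 : ℝ), zr t σ ≠ 0 := fun σ hσ => hz σ hσ
  have hlc : ContinuousOn (lr t) (Set.Ici (1 / 2 : ℝ)) :=
    hdc.continuousOn.div hzc.continuousOn hzne
  -- integrability
  obtain ⟨C, hC, hbd⟩ := lr_bound t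
  have hlog2 : 0 < Real.log 2 := Real.log_pos (by norm_num)
  have hint : IntegrableOn (lr t) (Set.Ioi (1 / 2 : ℝ)) := by
    have h1 : IntegrableOn (lr t) (Set.Icc (1 / 2 : ℝ) 2) :=
      (hlc.mono Set.Icc_subset_Ici_self).integrableOn_compact isCompact_Icc
    have h2 : IntegrableOn (lr t) (Set.Ioi (2 : ℝ)) := by
      have h3 : IntegrableOn (fun σ : ℝ => C * Real.exp (-Real.log 2 * σ)) (Set.Ioi (2 : ℝ)) :=
        (integrableOn_exp_mul_Ioi (by linarith : -Real.log 2 < 0) 2).const_mul C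
      refine h3.mono' ?_ ?_
      · exact (hlc.mono (fun x hx => by
          simp only [Set.mem_Ioi] at hx
          simp only [Set.mem_Ici]
          linarith)).aestronglyMeasurable measurableSet_Ioi
      · refine (ae_restrict_iff' measurableSet_Ioi).2 (ae_of_all _ fun σ hσ => ?_)
        exact hbd σ (le_of_lt hσ)
    refine (h1.union h2).mono_set fun x hx => ?_
    simp only [Set.mem_Ioi] at hx
    rcases le_or_gt x 2 with h | h
    · exact Or.inl ⟨hx.le, h⟩
    · exact Or.inr h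
  -- the function `H`
  set F : ℝ → ℂ := fun σ => ∫ x in (1 / 2 : ℝ)..σ, lr t x with hF
  have hFd : ∀ σ : ℝ, 1 / 2 < σ → HasDerivAt F (lr t σ) σ := by
    intro σ hσ
    have hmem : Set.Ici (1 / 2 : ℝ) ∈ 𝓝 σ := Ici_mem_nhds hσ
    refine intervalIntegral.integral_hasDerivAt_right ?_ ?_ (hlc.continuousAt hmem)
    · refine (hlc.mono fun x hx => ?_).intervalIntegrable
      rw [Set.uIcc_of_le hσ.le] at hx
      exact hx.1
    · exact hlc.stronglyMeasurableAtFilter_nhdsWithin measurableSet_Ici σ |>.filter_mono (by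
        rw [nhdsWithin_eq_nhds.2 hmem])
  have hFlim : Tendsto F atTop (𝓝 (∫ x in Set.Ioi (1 / 2 : ℝ), lr t x)) :=
    intervalIntegral_tendsto_integral_Ioi _ hint tendsto_id
  have hFc : ContinuousWithinAt F (Set.Ici (1 / 2)) (1 / 2) := by
    have h1 : ContinuousOn F (Set.uIcc (1 / 2 : ℝ) 2) := by
      apply intervalIntegral.continuousOn_primitive_interval
      rw [Set.uIcc_of_le (by norm_num : (1 / 2 : ℝ) ≤ 2)]
      exact (hlc.mono Set.Icc_subset_Ici_self).integrableOn_compact isCompact_Icc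
    have h2 := h1 (1 / 2) Set.left_mem_uIcc
    rw [Set.uIcc_of_le (by norm_num : (1 / 2 : ℝ) ≤ 2)] at h2
    refine h2.mono_of_mem_nhdsWithin ?_
    exact Icc_mem_nhdsGE (by norm_num)
  set H : ℝ → ℂ := fun σ => zr t σ * Complex.exp (-F σ) with hH
  have hHd : ∀ σ : ℝ, 1 / 2 < σ → HasDerivAt H 0 σ := by
    intro σ hσ
    have h1 := (hzr σ).mul ((hFd σ hσ).neg.cexp)
    refine h1.congr_deriv ?_
    have h2 : zr t σ ≠ 0 := hzne σ hσ.le
    have h3 : zr t σ * lr t σ = deriv riemannZeta ((σ : ℂ) + (t : ℂ) * Complex.I) := by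
      unfold lr
      exact mul_div_cancel₀ _ h2
    rw [← h3]
    ring
  have hHc : ContinuousOn H (Set.Ici (1 / 2 : ℝ)) := by
    intro σ hσ
    rcases eq_or_lt_of_le (Set.mem_Ici.1 hσ) with h | h
    · rw [← h]
      exact hzc.continuousWithinAt.mul hFc.neg.cexp
    · exact (hHd σ h).continuousAt.continuousWithinAt
  have hconst : ∀ a σ : ℝ, 1 / 2 < a → a ≤ σ → H σ = H a := by
    intro a σ ha hσ
    refine constant_of_has_deriv_right_zero (hHc.mono fun x hx => ?_) ?_ σ
      (Set.right_mem_Icc.2 hσ)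
    · exact (ha.le.trans hx.1 : (1 / 2 : ℝ) ≤ x)
    · intro x hx
      exact (hHd x (lt_of_lt_of_le ha hx.1)).hasDerivWithinAt
  have hconst2 : ∀ σ : ℝ, 1 / 2 < σ → H σ = H (1 / 2) := by
    intro σ hσ
    have h1 : Tendsto H (𝓝[>] (1 / 2 : ℝ)) (𝓝 (H (1 / 2))) :=
      (hHc (1 / 2) Set.self_mem_Ici).mono_left (nhdsWithin_mono _ Set.Ioi_subset_Ici_self)
    have h2 : Tendsto H (𝓝[>] (1 / 2 : ℝ)) (𝓝 (H σ)) := by
      refine tendsto_const_nhds.congr' ?_
      filter_upwards [Ioo_mem_nhdsGT hσ] with a ha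
      exact hconst a σ ha.1 ha.2.le
    exact tendsto_nhds_unique h2 h1
  set J : ℂ := ∫ x in Set.Ioi (1 / 2 : ℝ), lr t x with hJ
  have hlim : Tendsto H atTop (𝓝 (1 * Complex.exp (-J))) :=
    (zr_tendsto t).mul ((Complex.continuous_exp.tendsto _).comp hFlim.neg)
  have hlim2 : Tendsto H atTop (𝓝 (H (1 / 2))) := by
    refine tendsto_const_nhds.congr' ?_
    filter_upwards [eventually_gt_atTop (1 / 2 : ℝ)] with σ hσ
    exact (hconst2 σ hσ).symm
  have hfin : H (1 / 2) = Complex.exp (-J) := by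
    have := tendsto_nhds_unique hlim2 hlim
    rwa [one_mul] at this
  have hH0 : H (1 / 2) = zt t := by
    simp only [hH, hF]
    rw [intervalIntegral.integral_same, neg_zero, Complex.exp_zero, mul_one]
    unfold zr zt
    push_cast
    rfl
  have hz0 : zt t = Complex.exp (-J) := by rw [← hH0, hfin]
  have haz : az t = (-J).im := by
    have h1 : (∫ σ in Set.Ioi (1 / 2 : ℝ), (lr t σ).im) = J.im :=
      Complex.imCLM.integral_comp_comm hint
    rw [Complex.neg_im, ← h1]
    rfl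
  rw [haz, hz0, Complex.norm_exp, Complex.ofReal_exp, ← Complex.exp_add]
  congr 1
  apply Complex.ext <;> simp

end Pool.Agent.Run7.h510.AE
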