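import Pool.Agent.Run7.h74.AE.Iface

/-!
# Project AE, piece AZM
-/

set_option autoImplicit false

namespace Pool.Agent.Run7.h510.AE

open Filter Topology MeasureTheory
open Pool.Agent.Q97.UM
open Pool.Agent.Run7.h74.AE

theorem meas_zeta : Measurable riemannZeta := by
  refine measurable_of_continuousOn_compl_singleton 1 fun s hs => ?_
  exact (differentiableAt_riemannZeta hs).continuousAt.continuousWithinAt

theorem t_AZM : S_AZM := by
  have h1 : Measurable (fun p : ℝ × ℝ =>
      (deriv riemannZeta ((p.2 : ℂ) + (p.1 : ℂ) * Complex.I) /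
        riemannZeta ((p.2 : ℂ) + (p.1 : ℂ) * Complex.I)).im) := by
    have h2 : Measurable (fun p : ℝ × ℝ => ((p.2 : ℂ) + (p.1 : ℂ) * Complex.I)) := by fun_prop
    exact Complex.measurable_im.comp
      (((measurable_deriv riemannZeta).comp h2).div (meas_zeta.comp h2))
  have h3 := h1.stronglyMeasurable.integral_prod_right'
    (ν := volume.restrict (Set.Ioi (1 / 2 : ℝ)))
  exact h3.measurable.neg

end Pool.Agent.Run7.h510.AE
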