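import Pool.Agent.Run7.h74.AE.Iface

/-!
# Project AE, piece KLGI
-/

set_option autoImplicit false

namespace Pool.Agent.Run7.h510.AE

open Filter Topology MeasureTheory
open Pool.Agent.Q97.UM
open Pool.Agent.Run7.h74.AE

/-- the argument of `v + i s` -/
noncomputable def ag (v s : ℝ) : ℝ := Complex.arg ⟨v, s⟩

theorem ag_pos {v s : ℝ} (hs : 0 < s) : ag v s = Real.pi / 2 - Real.arctan (v / s) := by
  unfold ag
  have hne : (⟨v, s⟩ : ℂ) ≠ 0 := by
    intro h
    have := congrArg Complex.im h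
    simp at this
    exact hs.ne' this
  rw [Complex.arg_of_im_nonneg_of_ne_zero (by exact hs.le) hne, Real.arccos, Real.arctan_eq_arcsin]
  congr 2
  have h1 : ‖(⟨v, s⟩ : ℂ)‖ = Real.sqrt (v ^ 2 + s ^ 2) := by
    rw [Complex.norm_eq_sqrt_sq_add_sq]
  rw [h1]
  have h2 : 1 + (v / s) ^ 2 = (v ^ 2 + s ^ 2) / s ^ 2 := by
    field_simp
    ring
  rw [h2, Real.sqrt_div (by positivity), Real.sqrt_sq hs.le]
  have h3 : 0 < Real.sqrt (v ^ 2 + s ^ 2) := Real.sqrt_pos.2 (by positivity)
  field_simp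

theorem ag_neg {v s : ℝ} (hs : s ≠ 0) : ag v (-s) = -ag v s := by
  unfold ag
  have h1 : (⟨v, -s⟩ : ℂ) = (starRingEnd ℂ) ⟨v, s⟩ := by
    apply Complex.ext <;> simp
  rw [h1, Complex.arg_conj, if_neg]
  intro h
  rw [Complex.arg_eq_pi_iff] at h
  exact hs h.2

theorem ag_abs (v s : ℝ) : |ag v s| ≤ Real.pi := Complex.abs_arg_le_pi _

theorem hasDeriv {v : ℝ} {s : ℝ} (hs : 0 < s) :
    HasDerivAt (fun x : ℝ => Real.arctan (v / x)) (-(v / (s ^ 2 + v ^ 2))) s := by
  have h1 : HasDerivAt (fun x : ℝ => v / x) (-v / s ^ 2) s := by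
    have := (hasDerivAt_inv hs.ne').const_mul v
    exact this.congr_deriv (by ring)
  have h2 := h1.arctan
  convert h2 using 1
  field_simp

/-- the second difference of the argument -/
theorem second_diff_pos {v u y : ℝ} (hu : 0 < u) (hy0 : 0 ≤ y) (hy : y ≤ u / 2) :
    |2 * ag v u - ag v (u + y) - ag v (u - y)| ≤ 4 * y ^ 2 / u ^ 2 := by
  rw [ag_pos hu, ag_pos (by linarith : (0 : ℝ) < u + y), ag_pos (by linarith : (0 : ℝ) < u - y)]
  set φ : ℝ → ℝ := fun r => Real.arctan (v / (u + r)) + Real.arctan (v / (u - r)) with hφ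
  have hd : ∀ r ∈ Set.Icc (0 : ℝ) y, HasDerivWithinAt φ
      (-(v / ((u + r) ^ 2 + v ^ 2)) + v / ((u - r) ^ 2 + v ^ 2)) (Set.Icc 0 y) r := by
    intro r hr
    have hr1 := hr.1
    have hr2 := hr.2
    have h1 : HasDerivAt (fun x : ℝ => Real.arctan (v / (u + x)))
        (-(v / ((u + r) ^ 2 + v ^ 2))) r := by
      have h3 : HasDerivAt (fun x : ℝ => u + x) 1 r := (hasDerivAt_id r).const_add u
      have := HasDerivAt.comp r (hasDeriv (v := v) (by linarith : (0 : ℝ) < u + r)) h3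
      exact this.congr_deriv (by ring)
    have h2 : HasDerivAt (fun x : ℝ => Real.arctan (v / (u - x)))
        (v / ((u - r) ^ 2 + v ^ 2)) r := by
      have h3 : HasDerivAt (fun x : ℝ => u - x) (-1) r := by
        simpa using (hasDerivAt_id r).const_sub u
      have := HasDerivAt.comp r (hasDeriv (v := v) (by linarith : (0 : ℝ) < u - r)) h3
      exact this.congr_deriv (by ring)
    exact (h1.add h2).hasDerivWithinAt
  have hb : ∀ r ∈ Set.Icc (0 : ℝ) y,
      ‖-(v / ((u + r) ^ 2 + v ^ 2)) + v / ((u - r) ^ 2 + v ^ 2)‖ ≤ 4 * y / u ^ 2 := by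
    intro r hr
    have hr1 := hr.1
    have hr2 := hr.2
    have hA : 0 < (u + r) ^ 2 + v ^ 2 := by
      have : 0 < u + r := by linarith
      positivity
    have hB : 0 < (u - r) ^ 2 + v ^ 2 := by
      have : 0 < u - r := by linarith
      positivity
    have e1 : -(v / ((u + r) ^ 2 + v ^ 2)) + v / ((u - r) ^ 2 + v ^ 2) =
        (4 * u * r) * v / (((u + r) ^ 2 + v ^ 2) * ((u - r) ^ 2 + v ^ 2)) := by
      field_simp
      ring
    rw [e1, Real.norm_eq_abs, abs_div, abs_mul, abs_of_pos (mul_pos hA hB),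
      abs_of_nonneg (by positivity : (0 : ℝ) ≤ 4 * u * r), div_le_div_iff₀ (mul_pos hA hB)
      (by positivity)]
    have h1 : u ^ 2 ≤ (u + r) ^ 2 + v ^ 2 := by nlinarith [sq_nonneg v]
    have h2 : u * |v| ≤ (u - r) ^ 2 + v ^ 2 := by
      have h3 : u / 2 ≤ u - r := by linarith
      have h4 : (u / 2) ^ 2 ≤ (u - r) ^ 2 := by
        apply pow_le_pow_left₀ (by linarith) h3
      have h5 := sq_nonneg (u / 2 - |v|)
      have h6 : |v| ^ 2 = v ^ 2 := sq_abs v
      nlinarith
    have h3 : u ^ 2 * (u * |v|) ≤ ((u + r) ^ 2 + v ^ 2) * ((u - r) ^ 2 + v ^ 2) :=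
      mul_le_mul h1 h2 (by positivity) hA.le
    have h4 : 0 ≤ |v| := abs_nonneg v
    calc 4 * u * r * |v| * u ^ 2 = 4 * r * (u ^ 2 * (u * |v|)) := by ring
      _ ≤ 4 * y * (((u + r) ^ 2 + v ^ 2) * ((u - r) ^ 2 + v ^ 2)) := by
          apply mul_le_mul (by linarith) h3 (by positivity) (by linarith)
  have hmv := (convex_Icc (0 : ℝ) y).norm_image_sub_le_of_norm_hasDerivWithin_le hd hb
    (Set.left_mem_Icc.2 hy0) (Set.right_mem_Icc.2 hy0)
  rw [Real.norm_eq_abs, Real.norm_eq_abs, sub_zero, abs_of_nonneg hy0] at hmv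
  have e2 : φ y - φ 0 = 2 * (Real.pi / 2 - Real.arctan (v / u)) -
      (Real.pi / 2 - Real.arctan (v / (u + y))) - (Real.pi / 2 - Real.arctan (v / (u - y))) := by
    simp only [hφ, add_zero, sub_zero]
    ring
  rw [← e2]
  refine hmv.trans (le_of_eq ?_)
  ring

theorem second_diff {v u y : ℝ} (hu : u ≠ 0) (hy : |y| ≤ |u| / 2) :
    |2 * ag v u - ag v (u + y) - ag v (u - y)| ≤ 4 * y ^ 2 / u ^ 2 := by
  have key : ∀ u : ℝ, 0 < u → |y| ≤ u / 2 →
      |2 * ag v u - ag v (u + y) - ag v (u - y)| ≤ 4 * y ^ 2 / u ^ 2 := by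
    intro u hu hy
    rcases le_total 0 y with h | h
    · rw [abs_of_nonneg h] at hy
      exact second_diff_pos hu h hy
    · rw [abs_of_nonpos h] at hy
      have := second_diff_pos (v := v) hu (by linarith : (0 : ℝ) ≤ -y) hy
      rw [neg_sq, sub_neg_eq_add, ← sub_eq_add_neg] at this
      have e : 2 * ag v u - ag v (u + y) - ag v (u - y) =
          2 * ag v u - ag v (u - y) - ag v (u + y) := by ring
      rw [e]
      exact this
  rcases lt_or_gt_of_ne hu with h | h
  · rw [abs_of_neg h] at hy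
    have h1 := key (-u) (by linarith) hy
    have hy' := abs_le.1 hy
    have e1 : ag v (-u) = -ag v u := ag_neg hu
    have e2 : ag v (-u + y) = -ag v (u - y) := by
      have : -u + y = -(u - y) := by ring
      rw [this, ag_neg (by intro h3; linarith [hy'.1, hy'.2])]
    have e3 : ag v (-u - y) = -ag v (u + y) := by
      have : -u - y = -(u + y) := by ring
      rw [this, ag_neg (by intro h3; linarith [hy'.1, hy'.2])]
    rw [e1, e2, e3] at h1
    have e4 : 2 * -ag v u - -ag v (u - y) - -ag v (u + y) =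
        -(2 * ag v u - ag v (u + y) - ag v (u - y)) := by ring
    rw [e4, abs_neg, neg_sq] at h1
    exact h1
  · rw [abs_of_pos h] at hy
    exact key u h hy

theorem second_diff_all {v u : ℝ} (hu : u ≠ 0) (y : ℝ) :
    |2 * ag v u - ag v (u + y) - ag v (u - y)| ≤ 16 * Real.pi * y ^ 2 / u ^ 2 := by
  have hpi := Real.pi_gt_three
  have hu2 : 0 < u ^ 2 := by positivity
  rcases le_or_gt |y| (|u| / 2) with h | h
  · refine (second_diff hu h).trans ?_
    gcongr
    linarith
  · have h1 : |2 * ag v u - ag v (u + y) - ag v (u - y)| ≤ 4 * Real.pi := by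
      have a1 := abs_le.1 (ag_abs v u)
      have a2 := abs_le.1 (ag_abs v (u + y))
      have a3 := abs_le.1 (ag_abs v (u - y))
      rw [abs_le]
      constructor <;> linarith [a1.1, a1.2, a2.1, a2.2, a3.1, a3.2]
    refine h1.trans ?_
    rw [le_div_iff₀ hu2]
    have h2 : u ^ 2 ≤ 4 * y ^ 2 := by
      have h3 : |u| ≤ 2 * |y| := by linarith
      have h4 : |u| ^ 2 ≤ (2 * |y|) ^ 2 := pow_le_pow_left₀ (abs_nonneg _) h3 2
      rw [sq_abs, mul_pow, sq_abs] at h4
      linarith
    nlinarith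

theorem meas_ag (v : ℝ) : Measurable (ag v) := by
  have h : Measurable (fun s : ℝ => (v : ℂ) + s * Complex.I) := by fun_prop
  have h2 : ag v = fun s : ℝ => Complex.arg ((v : ℂ) + s * Complex.I) := by
    funext s
    unfold ag
    congr 1
    apply Complex.ext <;> simp
  rw [h2]
  exact Complex.measurable_arg.comp h

theorem t_KLGI : J_KLGI := by
  intro hKB ψ₁ k₀ hK
  obtain ⟨heven, hint, hone, -, hdec⟩ := hKB ψ₁ k₀ hK
  obtain ⟨C4, hC4, hk4, -⟩ := hdec 4
  -- second moment
  have hm2 : Integrable (fun z : ℝ => k₀ z * z ^ 2) := by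
    have h1 : Integrable (fun z : ℝ => C4 * (1 + z ^ 2)⁻¹) := integrable_inv_one_add_sq.const_mul C4
    refine h1.mono' ?_ (ae_of_all _ fun z => ?_)
    · exact (hK.cont.mul (by fun_prop)).aestronglyMeasurable
    · have h2 := hk4 z
      have h3 := hK.nonneg z
      rw [Real.norm_eq_abs, abs_of_nonneg (by positivity)]
      have h4 : k₀ z * z ^ 2 ≤ C4 / (1 + |z|) ^ 4 * z ^ 2 :=
        mul_le_mul_of_nonneg_right h2 (sq_nonneg z)
      refine h4.trans ?_
      rw [div_mul_eq_mul_div, mul_div_assoc]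
      refine mul_le_mul_of_nonneg_left ?_ hC4
      have h5 : 0 ≤ |z| := abs_nonneg z
      have h6 : z ^ 2 = |z| ^ 2 := (sq_abs z).symm
      rw [h6, div_le_iff₀ (by positivity), inv_mul_eq_div, le_div_iff₀ (by positivity)]
      have h7 : 0 ≤ |z| ^ 3 := by positivity
      nlinarith [h7, h5, sq_nonneg |z|]
  set M2 : ℝ := ∫ z : ℝ, k₀ z * z ^ 2 with hM2
  have hM2n : 0 ≤ M2 := integral_nonneg fun z => mul_nonneg (hK.nonneg z) (sq_nonneg z)
  have hpi := Real.pi_pos
  refine ⟨8 * Real.pi + 32 * Real.pi * M2, by positivity, ?_⟩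
  intro D u v hD hu
  have hD0 : 0 < D := by linarith
  -- the scaled kernel
  set κ : ℝ → ℝ := fun y => D * k₀ (D * y) with hκ
  have hκint : Integrable κ := (hint.comp_mul_left' hD0.ne').const_mul D
  have hκnn : ∀ y, 0 ≤ κ y := fun y => mul_nonneg hD0.le (hK.nonneg _)
  have hκone : ∫ y, κ y = 1 := by
    have h1 := Measure.integral_comp_mul_left k₀ D
    simp only [hκ]
    rw [integral_const_mul, h1, hone, abs_of_pos (inv_pos.2 hD0), smul_eq_mul, mul_one,
      mul_inv_cancel₀ hD0.ne']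
  have hκev : ∀ y, κ (-y) = κ y := fun y => by
    simp only [hκ]
    rw [mul_neg, heven]
  have hκ2 : ∫ y, κ y * y ^ 2 = M2 / D ^ 2 := by
    have h1 := Measure.integral_comp_mul_left (fun z : ℝ => k₀ z * z ^ 2) D
    have h2 : ∀ y : ℝ, κ y * y ^ 2 = D⁻¹ * (k₀ (D * y) * (D * y) ^ 2) := by
      intro y
      simp only [hκ]
      field_simp
    simp_rw [h2]
    rw [integral_const_mul, h1, abs_of_pos (inv_pos.2 hD0), smul_eq_mul, ← hM2]
    field_simp
  have hκ2int : Integrable (fun y => κ y * y ^ 2) := by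
    have h1 := (hm2.comp_mul_left' hD0.ne').const_mul D⁻¹
    refine h1.congr (ae_of_all _ fun y => ?_)
    simp only [hκ]
    field_simp
  -- the integrand
  have hbd : ∀ y : ℝ, |ag v u - ag v (u + y)| ≤ 2 * Real.pi := by
    intro y
    have a1 := abs_le.1 (ag_abs v u)
    have a2 := abs_le.1 (ag_abs v (u + y))
    rw [abs_le]
    constructor <;> linarith [a1.1, a1.2, a2.1, a2.2]
  have hmeas : Measurable (fun y : ℝ => ag v u - ag v (u + y)) :=
    measurable_const.sub ((meas_ag v).comp (measurable_const.add measurable_id))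
  have hI : Integrable (fun y : ℝ => κ y * (ag v u - ag v (u + y))) := by
    refine (hκint.mul_const (2 * Real.pi)).mono' ?_ (ae_of_all _ fun y => ?_)
    · exact hκint.aestronglyMeasurable.mul hmeas.aestronglyMeasurable
    · rw [Real.norm_eq_abs, abs_mul, abs_of_nonneg (hκnn y)]
      exact mul_le_mul_of_nonneg_left (hbd y) (hκnn y)
  refine ⟨hI, ?_⟩
  have hGA : GA k₀ D u v = ∫ y : ℝ, κ y * (ag v u - ag v (u + y)) := rfl
  -- first bound
  have hb1 : |GA k₀ D u v| ≤ 2 * Real.pi := by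
    rw [hGA]
    calc |∫ y : ℝ, κ y * (ag v u - ag v (u + y))| ≤
        ∫ y : ℝ, |κ y * (ag v u - ag v (u + y))| := abs_integral_le_integral_abs
      _ ≤ ∫ y : ℝ, κ y * (2 * Real.pi) := by
          refine integral_mono hI.abs (hκint.mul_const _) fun y => ?_
          show |κ y * (ag v u - ag v (u + y))| ≤ κ y * (2 * Real.pi)
          rw [abs_mul, abs_of_nonneg (hκnn y)]
          exact mul_le_mul_of_nonneg_left (hbd y) (hκnn y)
      _ = 2 * Real.pi := by rw [integral_mul_const, hκone, one_mul]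
  -- second bound
  have hI' : Integrable (fun y : ℝ => κ y * (ag v u - ag v (u - y))) := by
    have := hI.comp_neg
    refine this.congr (ae_of_all _ fun y => ?_)
    show κ (-y) * (ag v u - ag v (u + -y)) = _
    rw [hκev, ← sub_eq_add_neg]
  have hrefl : (∫ y : ℝ, κ y * (ag v u - ag v (u - y))) = GA k₀ D u v := by
    rw [hGA, ← integral_neg_eq_self (fun y : ℝ => κ y * (ag v u - ag v (u + y)))]
    refine integral_congr_ae (ae_of_all _ fun y => ?_)
    show κ y * (ag v u - ag v (u - y)) = κ (-y) * (ag v u - ag v (u + -y))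
    rw [hκev, ← sub_eq_add_neg]
  have h2GA : 2 * GA k₀ D u v =
      ∫ y : ℝ, κ y * (2 * ag v u - ag v (u + y) - ag v (u - y)) := by
    have h1 : 2 * GA k₀ D u v = (∫ y : ℝ, κ y * (ag v u - ag v (u + y))) +
        ∫ y : ℝ, κ y * (ag v u - ag v (u - y)) := by
      rw [hrefl, ← hGA]; ring
    rw [h1, ← integral_add hI hI']
    refine integral_congr_ae (ae_of_all _ fun y => ?_)
    show κ y * (ag v u - ag v (u + y)) + κ y * (ag v u - ag v (u - y)) = _
    ring
  have hIs : Integrable (fun y : ℝ => κ y * (2 * ag v u - ag v (u + y) - ag v (u - y))) := by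
    refine (hI.add hI').congr (ae_of_all _ fun y => ?_)
    show κ y * (ag v u - ag v (u + y)) + κ y * (ag v u - ag v (u - y)) = _
    ring
  have hb2 : 2 * |GA k₀ D u v| ≤ 16 * Real.pi * M2 / (D * |u|) ^ 2 := by
    have h1 : 2 * |GA k₀ D u v| = |2 * GA k₀ D u v| := by
      rw [abs_mul, abs_of_pos (by norm_num : (0 : ℝ) < 2)]
    rw [h1, h2GA]
    calc |∫ y : ℝ, κ y * (2 * ag v u - ag v (u + y) - ag v (u - y))| ≤
        ∫ y : ℝ, |κ y * (2 * ag v u - ag v (u + y) - ag v (u - y))| :=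
          abs_integral_le_integral_abs
      _ ≤ ∫ y : ℝ, (κ y * y ^ 2) * (16 * Real.pi / u ^ 2) := by
          refine integral_mono hIs.abs (hκ2int.mul_const _) fun y => ?_
          show |κ y * (2 * ag v u - ag v (u + y) - ag v (u - y))| ≤
            (κ y * y ^ 2) * (16 * Real.pi / u ^ 2)
          rw [abs_mul, abs_of_nonneg (hκnn y)]
          refine (mul_le_mul_of_nonneg_left (second_diff_all hu y) (hκnn y)).trans (le_of_eq ?_)
          ring
      _ = 16 * Real.pi * M2 / (D * |u|) ^ 2 := by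
          rw [integral_mul_const, hκ2, mul_pow, sq_abs]
          field_simp
  have hx : 0 < D * |u| := mul_pos hD0 (abs_pos.2 hu)
  rw [le_div_iff₀ (by positivity)]
  rcases le_or_gt (D * |u|) 1 with h | h
  · have h1 : (1 + D * |u|) ^ 2 ≤ 4 := by nlinarith
    calc |GA k₀ D u v| * (1 + D * |u|) ^ 2 ≤ (2 * Real.pi) * 4 :=
          mul_le_mul hb1 h1 (by positivity) (by positivity)
      _ ≤ 8 * Real.pi + 32 * Real.pi * M2 := by nlinarith [mul_nonneg hpi.le hM2n]
  · have h1 : (1 + D * |u|) ^ 2 ≤ 4 * (D * |u|) ^ 2 := by nlinarith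
    have h2 : 2 * |GA k₀ D u v| * (D * |u|) ^ 2 ≤ 16 * Real.pi * M2 :=
      (le_div_iff₀ (by positivity)).1 hb2
    have h3 : |GA k₀ D u v| * (1 + D * |u|) ^ 2 ≤ |GA k₀ D u v| * (4 * (D * |u|) ^ 2) :=
      mul_le_mul_of_nonneg_left h1 (abs_nonneg _)
    nlinarith [h3, h2, hpi]

end Pool.Agent.Run7.h510.AE
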